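import Mathlib

/-!
# Two sequential spaces whose product is a `k_R`-space but not a `k`-space

`X` consists of a point `∞` and countably many copies of a Mrówka space (built from a maximal almost
disjoint family) which converge to `∞`; `Y` is the sequential fan with countably many spines.
-/

set_option autoImplicit false

open Topology Filter Set TopologicalSpace

namespace Pool.Agent.Results.MP_a29c66_gt.NotK

/-- `Z` is a `k`-space: a set `F ⊆ Z` is closed whenever `F ∩ K` is closed in `K` for every compact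
`K ⊆ Z`. -/
def KSpace (Z : Type) [TopologicalSpace Z] : Prop :=
  ∀ F : Set Z, (∀ K : Set Z, IsCompact K → IsClosed ((Subtype.val : K → Z) ⁻¹' F)) → IsClosed F

/-- `Z` is a `k_R`-space: `Z` is Tychonoff, and every `f : Z → ℝ` whose restriction to each compact
`K ⊆ Z` is continuous is continuous. -/
def KRSpace (Z : Type) [TopologicalSpace Z] : Prop :=
  T35Space Z ∧ ∀ f : Z → ℝ, (∀ K : Set Z, IsCompact K → ContinuousOn f K) → Continuous f

/-! ### Maximal almost disjoint families -/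

/-- Almost disjoint families of infinite subsets of `ℕ × ℕ`. -/
def AD (𝒜 : Set (Set (ℕ × ℕ))) : Prop :=
  (∀ A ∈ 𝒜, A.Infinite) ∧ ∀ A ∈ 𝒜, ∀ B ∈ 𝒜, A ≠ B → (A ∩ B).Finite

/-- The `k`-th column. -/
def col (k : ℕ) : Set (ℕ × ℕ) := {p | p.1 = k}

theorem col_infinite (k : ℕ) : (col k).Infinite := by
  refine infinite_of_injective_forall_mem (f := fun j : ℕ => (k, j)) ?_ (fun j => rfl)
  intro a b h
  exact (Prod.mk.inj h).2

theorem exists_mad : ∃ 𝒜 : Set (Set (ℕ × ℕ)), AD 𝒜 ∧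
    (∀ R : Set (ℕ × ℕ), R.Infinite → ∃ A ∈ 𝒜, (A ∩ R).Infinite) ∧ ∀ k, col k ∈ 𝒜 := by
  have h0 : AD (range col) := by
    refine ⟨?_, ?_⟩
    · rintro _ ⟨k, rfl⟩
      exact col_infinite k
    · rintro _ ⟨k, rfl⟩ _ ⟨l, rfl⟩ hne
      have hkl : k ≠ l := fun h => hne (by rw [h])
      have : col k ∩ col l = ∅ := by
        ext p
        simp only [mem_inter_iff, mem_empty_iff_false, iff_false, not_and]
        intro h1 h2
        exact hkl (h1.symm.trans h2)
      rw [this]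
      exact finite_empty
  obtain ⟨𝒜, hsub, hmax⟩ := zorn_subset_nonempty {𝒜 | AD 𝒜} (by
    intro c hc hchain hne
    refine ⟨⋃₀ c, ⟨?_, ?_⟩, fun s hs => subset_sUnion_of_mem hs⟩
    · rintro A ⟨ℬ, hℬ, hA⟩
      exact (hc hℬ).1 A hA
    · rintro A ⟨ℬ, hℬ, hA⟩ B ⟨𝒞, h𝒞, hB⟩ hAB
      rcases hchain.total hℬ h𝒞 with h | h
      · exact (hc h𝒞).2 A (h hA) B hB hAB
      · exact (hc hℬ).2 A hA B (h hB) hAB) (range col) h0
  refine ⟨𝒜, hmax.prop, ?_, fun k => hsub ⟨k, rfl⟩⟩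
  intro R hR
  by_contra hcon
  push Not at hcon
  have hfin : ∀ A ∈ 𝒜, (A ∩ R).Finite := fun A hA => hcon A hA
  have h1 : AD (insert R 𝒜) := by
    refine ⟨?_, ?_⟩
    · rintro A (rfl | hA)
      · exact hR
      · exact hmax.prop.1 A hA
    · rintro A (rfl | hA) B (rfl | hB) hAB
      · exact absurd rfl hAB
      · rw [inter_comm]
        exact hfin B hB
      · exact hfin A hA
      · exact hmax.prop.2 A hA B hB hAB
  have h2 : R ∈ 𝒜 := hmax.le_of_ge h1 (subset_insert R 𝒜) (mem_insert R 𝒜)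
  have h3 := hfin R h2
  rw [inter_self] at h3
  exact hR h3

/-! ### The space `X` -/

/-- The points of `X`: the point `inf`, the isolated points `iso n p` and the limit points `lim n A`
of the `n`-th copy of the Mrówka space. -/
inductive X (𝒜 : Set (Set (ℕ × ℕ))) : Type
  | inf : X 𝒜
  | iso : ℕ → ℕ × ℕ → X 𝒜
  | lim : ℕ → 𝒜 → X 𝒜

/-- The number of the copy which contains a point. -/
def X.In {𝒜 : Set (Set (ℕ × ℕ))} (N : ℕ) : X 𝒜 → Prop
  | .inf => True
  | .iso n _ => N ≤ n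
  | .lim n _ => N ≤ n

instance (𝒜 : Set (Set (ℕ × ℕ))) : TopologicalSpace (X 𝒜) where
  IsOpen U := (∀ (n : ℕ) (A : 𝒜), X.lim n A ∈ U → {p ∈ A.1 | X.iso n p ∉ U}.Finite) ∧
    (X.inf ∈ U → ∃ N, ∀ x : X 𝒜, x.In N → x ∈ U)
  isOpen_univ := ⟨fun n A _ => by simp, fun _ => ⟨0, fun x _ => mem_univ x⟩⟩
  isOpen_inter := by
    rintro U V ⟨hU1, hU2⟩ ⟨hV1, hV2⟩
    refine ⟨fun n A h => ?_, fun h => ?_⟩
    · refine ((hU1 n A h.1).union (hV1 n A h.2)).subset ?_
      rintro p ⟨hp, hp2⟩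
      by_cases h3 : X.iso n p ∈ U
      · exact Or.inr ⟨hp, fun h4 => hp2 ⟨h3, h4⟩⟩
      · exact Or.inl ⟨hp, h3⟩
    · obtain ⟨N, hN⟩ := hU2 h.1
      obtain ⟨M, hM⟩ := hV2 h.2
      refine ⟨max N M, fun x hx => ⟨hN x ?_, hM x ?_⟩⟩
      · cases x with
        | inf => trivial
        | iso n p => exact le_trans (le_max_left _ _) hx
        | lim n A => exact le_trans (le_max_left _ _) hx
      · cases x with
        | inf => trivial
        | iso n p => exact le_trans (le_max_right _ _) hx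
        | lim n A => exact le_trans (le_max_right _ _) hx
  isOpen_sUnion := by
    intro S hS
    refine ⟨fun n A h => ?_, fun h => ?_⟩
    · obtain ⟨U, hU, hU2⟩ := h
      refine ((hS U hU).1 n A hU2).subset ?_
      rintro p ⟨hp, hp2⟩
      exact ⟨hp, fun h3 => hp2 ⟨U, hU, h3⟩⟩
    · obtain ⟨U, hU, hU2⟩ := h
      obtain ⟨N, hN⟩ := (hS U hU).2 hU2
      exact ⟨N, fun x hx => ⟨U, hU, hN x hx⟩⟩

theorem X.isOpen_iff {𝒜 : Set (Set (ℕ × ℕ))} {U : Set (X 𝒜)} : IsOpen U ↔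
    (∀ (n : ℕ) (A : 𝒜), X.lim n A ∈ U → {p ∈ A.1 | X.iso n p ∉ U}.Finite) ∧
    (X.inf ∈ U → ∃ N, ∀ x : X 𝒜, x.In N → x ∈ U) := Iff.rfl

/-! ### The space `Y` -/

/-- The points of the sequential fan. -/
inductive Y : Type
  | inf : Y
  | iso : ℕ → ℕ → Y

instance : TopologicalSpace Y where
  IsOpen U := Y.inf ∈ U → ∀ m, ∃ k, ∀ i, k ≤ i → Y.iso m i ∈ U
  isOpen_univ := fun _ m => ⟨0, fun i _ => mem_univ _⟩
  isOpen_inter := by
    intro U V hU hV h m
    obtain ⟨k, hk⟩ := hU h.1 m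
    obtain ⟨l, hl⟩ := hV h.2 m
    exact ⟨max k l, fun i hi => ⟨hk i (le_trans (le_max_left _ _) hi),
      hl i (le_trans (le_max_right _ _) hi)⟩⟩
  isOpen_sUnion := by
    rintro S hS ⟨U, hU, hU2⟩ m
    obtain ⟨k, hk⟩ := hS U hU hU2 m
    exact ⟨k, fun i hi => ⟨U, hU, hk i hi⟩⟩

theorem Y.isOpen_iff {U : Set Y} : IsOpen U ↔
    (Y.inf ∈ U → ∀ m, ∃ k, ∀ i, k ≤ i → Y.iso m i ∈ U) := Iff.rfl

/-! ### Clopen sets and complete regularity -/

theorem t35_of_clopen {Z : Type} [TopologicalSpace Z]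
    (h0 : ∀ x y : Z, x ≠ y → ∃ U : Set Z, IsClopen U ∧ x ∈ U ∧ y ∉ U)
    (h : ∀ (x : Z) (U : Set Z), IsOpen U → x ∈ U → ∃ V : Set Z, IsClopen V ∧ x ∈ V ∧ V ⊆ U) :
    T35Space Z := by
  have hT0 : T0Space Z := by
    rw [t0Space_iff_exists_isOpen_xor_mem]
    intro x y hxy
    obtain ⟨U, hU, hx, hy⟩ := h0 x y hxy
    exact ⟨U, hU.isOpen, Or.inl ⟨hx, hy⟩⟩
  have hb : IsTopologicalBasis {s : Set Z | IsClopen s} := by
    refine isTopologicalBasis_of_isOpen_of_nhds (fun s hs => hs.isOpen) ?_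
    intro x U hx hU
    obtain ⟨V, hV, hxV, hVU⟩ := h x U hU hx
    exact ⟨V, hV, hxV, hVU⟩
  have hc : CompletelyRegularSpace Z := CompletelyRegularSpace.of_isTopologicalBasis_clopens hb
  exact { hT0, hc with }

theorem Y.t35 : T35Space Y := by
  have hiso : ∀ m i, IsClopen {Y.iso m i} := by
    intro m i
    refine ⟨⟨?_⟩, ?_⟩
    · rw [Y.isOpen_iff]
      intro _ m'
      refine ⟨i + 1, fun j hj => ?_⟩
      simp only [mem_compl_iff, mem_singleton_iff, Y.iso.injEq, not_and]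
      intro _
      omega
    · rw [Y.isOpen_iff]
      intro h
      simp at h
  refine t35_of_clopen ?_ ?_
  · intro x y hxy
    cases x with
    | inf =>
      cases y with
      | inf => exact absurd rfl hxy
      | iso m i => exact ⟨{Y.iso m i}ᶜ, (hiso m i).compl, by simp, by simp⟩
    | iso m i => exact ⟨{Y.iso m i}, hiso m i, rfl, fun h => hxy (by simpa using h.symm)⟩
  · intro x U hU hx
    cases x with
    | inf =>
      refine ⟨U, ⟨⟨?_⟩, hU⟩, hx, subset_rfl⟩
      rw [Y.isOpen_iff]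
      intro h
      exact absurd hx h
    | iso m i => exact ⟨{Y.iso m i}, hiso m i, rfl, by simpa using hx⟩

theorem X.t35 {𝒜 : Set (Set (ℕ × ℕ))} (h𝒜 : AD 𝒜) : T35Space (X 𝒜) := by
  -- isolated points
  have hiso : ∀ n p, IsClopen {(X.iso n p : X 𝒜)} := by
    intro n p
    refine ⟨⟨?_⟩, ?_⟩
    · rw [X.isOpen_iff]
      refine ⟨fun n' A _ => ?_, fun _ => ⟨n + 1, fun x hx => ?_⟩⟩
      · refine (finite_singleton p).subset ?_
        rintro q ⟨-, hq⟩
        simp only [mem_compl_iff, mem_singleton_iff, X.iso.injEq, not_not] at hq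
        exact hq.2
      · rintro rfl
        have : n + 1 ≤ n := hx
        omega
    · rw [X.isOpen_iff]
      refine ⟨fun n' A h => ?_, fun h => ?_⟩
      · simp at h
      · simp at h
  -- the points `lim n A`
  have hlim : ∀ (n : ℕ) (A : 𝒜) (F : Set (ℕ × ℕ)), F.Finite →
      IsClopen ({X.lim n A} ∪ {x | ∃ p ∈ A.1, p ∉ F ∧ x = X.iso n p}) := by
    intro n A F hF
    refine ⟨⟨?_⟩, ?_⟩
    · rw [X.isOpen_iff]
      refine ⟨fun n' B h => ?_, fun _ => ⟨n + 1, fun x hx => ?_⟩⟩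
      · by_cases hn : n' = n
        · subst hn
          have hAB : A.1 ≠ B.1 := by
            intro e
            apply h
            left
            rw [Subtype.ext e]
            rfl
          refine (h𝒜.2 A.1 A.2 B.1 B.2 hAB).subset ?_
          rintro q ⟨hq, hq2⟩
          rw [mem_compl_iff, not_not] at hq2
          rcases hq2 with hq2 | ⟨p, hp, -, hq2⟩
          · exact absurd hq2 (by simp)
          · simp only [X.iso.injEq, true_and] at hq2
            exact ⟨hq2 ▸ hp, hq⟩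
        · refine finite_empty.subset ?_
          rintro q ⟨-, hq2⟩
          rw [mem_compl_iff, not_not] at hq2
          rcases hq2 with hq2 | ⟨p, hp, -, hq2⟩
          · exact absurd hq2 (by simp)
          · simp only [X.iso.injEq] at hq2
            exact absurd hq2.1 hn
      · rintro (rfl | ⟨p, -, -, rfl⟩)
        · have : n + 1 ≤ n := hx
          omega
        · have : n + 1 ≤ n := hx
          omega
    · rw [X.isOpen_iff]
      refine ⟨fun n' B h => ?_, fun h => ?_⟩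
      · rcases h with h | ⟨p, hp, -, h⟩
        · simp only [mem_singleton_iff, X.lim.injEq] at h
          obtain ⟨rfl, rfl⟩ := h
          refine hF.subset ?_
          rintro q ⟨hq, hq2⟩
          by_contra hc
          exact hq2 (Or.inr ⟨q, hq, hc, rfl⟩)
        · exact absurd h (by simp)
      · rcases h with h | ⟨p, hp, -, h⟩
        · exact absurd h (by simp)
        · exact absurd h (by simp)
  -- the point `inf`
  have hinf : ∀ N, IsClopen {x : X 𝒜 | x.In N} := by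
    intro N
    refine ⟨⟨?_⟩, ?_⟩
    · rw [X.isOpen_iff]
      refine ⟨fun n A h => ?_, fun h => absurd trivial h⟩
      refine finite_empty.subset ?_
      rintro q ⟨-, hq2⟩
      rw [mem_compl_iff, not_not] at hq2
      exact h hq2
    · rw [X.isOpen_iff]
      refine ⟨fun n A h => ?_, fun _ => ⟨N, fun x hx => hx⟩⟩
      refine finite_empty.subset ?_
      rintro q ⟨-, hq2⟩
      exact hq2 h
  have hbase : ∀ (x : X 𝒜) (U : Set (X 𝒜)), IsOpen U → x ∈ U →
      ∃ V : Set (X 𝒜), IsClopen V ∧ x ∈ V ∧ V ⊆ U := by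
    intro x U hU hx
    rw [X.isOpen_iff] at hU
    cases x with
    | inf =>
      obtain ⟨N, hN⟩ := hU.2 hx
      exact ⟨{x | x.In N}, hinf N, trivial, fun y hy => hN y hy⟩
    | iso n p => exact ⟨{X.iso n p}, hiso n p, rfl, by simpa using hx⟩
    | lim n A =>
      refine ⟨_, hlim n A _ (hU.1 n A hx), Or.inl rfl, ?_⟩
      rintro y (rfl | ⟨p, hp, hp2, rfl⟩)
      · exact hx
      · by_contra hc
        exact hp2 ⟨hp, hc⟩
  refine t35_of_clopen ?_ hbase
  intro x y hxy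
  -- points are closed
  have hcl : IsOpen ({y}ᶜ : Set (X 𝒜)) := by
    cases y with
    | inf =>
      rw [X.isOpen_iff]
      refine ⟨fun n A _ => ?_, fun h => absurd rfl h⟩
      refine finite_empty.subset ?_
      rintro q ⟨-, hq2⟩
      simp at hq2
    | iso n p => exact (hiso n p).compl.isOpen
    | lim n A =>
      rw [X.isOpen_iff]
      refine ⟨fun n' B _ => ?_, fun h => ⟨n + 1, fun x hx => ?_⟩⟩
      · refine finite_empty.subset ?_
        rintro q ⟨-, hq2⟩
        simp at hq2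
      · rintro rfl
        have : n + 1 ≤ n := hx
        omega
  obtain ⟨V, hV, hxV, hVU⟩ := hbase x _ hcl hxy
  exact ⟨V, hV, hxV, fun h => hVU h rfl⟩

/-! ### Sequentiality -/

theorem Y.tendsto_inf (m : ℕ) (i : ℕ → ℕ) (hi : Tendsto i atTop atTop) :
    Tendsto (fun k => Y.iso m (i k)) atTop (𝓝 Y.inf) := by
  rw [tendsto_nhds]
  intro U hU hinf
  obtain ⟨k, hk⟩ := (Y.isOpen_iff.1 hU) hinf m
  filter_upwards [hi.eventually_ge_atTop k] with j hj
  exact hk _ hj

theorem Y.sequential : SequentialSpace Y := by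
  refine ⟨fun s hs => ⟨?_⟩⟩
  rw [Y.isOpen_iff]
  intro hinf m
  by_contra hcon
  push Not at hcon
  apply hinf
  choose i hi hi2 using hcon
  refine hs (x := fun k => Y.iso m (i k)) (fun k => not_not.1 (hi2 k)) ?_
  exact Y.tendsto_inf m i (tendsto_atTop_mono hi tendsto_id)

theorem X.tendsto_inf {𝒜 : Set (Set (ℕ × ℕ))} (u : ℕ → X 𝒜)
    (hu : ∀ N, ∀ᶠ k in atTop, (u k).In N) : Tendsto u atTop (𝓝 X.inf) := by
  rw [tendsto_nhds]
  intro U hU hinf
  obtain ⟨N, hN⟩ := (X.isOpen_iff.1 hU).2 hinf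
  filter_upwards [hu N] with k hk
  exact hN _ hk

theorem X.tendsto_lim {𝒜 : Set (Set (ℕ × ℕ))} (n : ℕ) (A : 𝒜) (v : ℕ → ℕ × ℕ)
    (hv : ∀ k, v k ∈ A.1) (hv2 : ∀ p, ∀ᶠ k in atTop, v k ≠ p) :
    Tendsto (fun k => (X.iso n (v k) : X 𝒜)) atTop (𝓝 (X.lim n A)) := by
  rw [tendsto_nhds]
  intro U hU hlim
  have hfin := (X.isOpen_iff.1 hU).1 n A hlim
  have h1 : ∀ᶠ k in atTop, ∀ p ∈ {p ∈ A.1 | X.iso n p ∉ U}, v k ≠ p := by
    rw [Filter.eventually_all_finite hfin]
    exact fun p _ => hv2 p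
  filter_upwards [h1] with k hk
  by_contra hc
  exact hk (v k) ⟨hv k, hc⟩ rfl

theorem X.sequential (𝒜 : Set (Set (ℕ × ℕ))) : SequentialSpace (X 𝒜) := by
  refine ⟨fun s hs => ⟨?_⟩⟩
  rw [X.isOpen_iff]
  refine ⟨fun n A h => ?_, fun hinf => ?_⟩
  · by_contra hcon
    have hinf : {p ∈ A.1 | (X.iso n p : X 𝒜) ∉ sᶜ}.Infinite := hcon
    let e := hinf.natEmbedding
    apply h
    refine hs (x := fun k => X.iso n (e k : ℕ × ℕ)) (fun k => not_not.1 (e k).2.2) ?_
    refine X.tendsto_lim n A _ (fun k => (e k).2.1) (fun p => ?_)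
    have : ({k | (e k : ℕ × ℕ) = p} : Set ℕ).Finite := by
      refine Set.Subsingleton.finite ?_
      intro a ha b hb
      have hab : (e a : ℕ × ℕ) = (e b : ℕ × ℕ) := (show (e a : ℕ × ℕ) = p from ha).trans
        (show (e b : ℕ × ℕ) = p from hb).symm
      exact e.injective (Subtype.ext hab)
    have h2 := this.compl_mem_cofinite
    rw [Nat.cofinite_eq_atTop] at h2
    exact h2
  · by_contra hcon
    push Not at hcon
    apply hinf
    choose u hu hu2 using hcon
    refine hs (x := u) (fun k => not_not.1 (hu2 k)) ?_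
    refine X.tendsto_inf u fun N => ?_
    filter_upwards [eventually_ge_atTop N] with k hk
    have := hu k
    revert this
    cases u k with
    | inf => intro _; trivial
    | iso n p => intro h; exact le_trans hk h
    | lim n p => intro h; exact le_trans hk h

/-! ### Relative sequential compactness of the isolated points of `X` -/

theorem X.subseq {𝒜 : Set (Set (ℕ × ℕ))}
    (hmad : ∀ R : Set (ℕ × ℕ), R.Infinite → ∃ A ∈ 𝒜, (A ∩ R).Infinite)
    (u : ℕ → ℕ × (ℕ × ℕ)) : ∃ (ψ : ℕ → ℕ) (x : X 𝒜), StrictMono ψ ∧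
      Tendsto (fun k => (X.iso (u (ψ k)).1 (u (ψ k)).2 : X 𝒜)) atTop (𝓝 x) := by
  by_cases h : ∃ n, ∃ᶠ k in atTop, (u k).1 = n
  · obtain ⟨n, hn⟩ := h
    obtain ⟨ψ₁, hψ₁, h1⟩ := extraction_of_frequently_atTop hn
    let v : ℕ → ℕ × ℕ := fun k => (u (ψ₁ k)).2
    by_cases h2 : ∃ p, ∃ᶠ k in atTop, v k = p
    · obtain ⟨p, hp⟩ := h2
      obtain ⟨ψ₂, hψ₂, h3⟩ := extraction_of_frequently_atTop hp
      refine ⟨ψ₁ ∘ ψ₂, X.iso n p, hψ₁.comp hψ₂, ?_⟩
      have : (fun k => (X.iso (u ((ψ₁ ∘ ψ₂) k)).1 (u ((ψ₁ ∘ ψ₂) k)).2 : X 𝒜)) =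
          fun _ => X.iso n p := by
        funext k
        have e1 : (u ((ψ₁ ∘ ψ₂) k)).1 = n := h1 (ψ₂ k)
        have e2 : (u ((ψ₁ ∘ ψ₂) k)).2 = p := h3 k
        rw [e1, e2]
      rw [this]
      exact tendsto_const_nhds
    · push Not at h2
      have h2' : ∀ p, ∀ᶠ k in atTop, v k ≠ p := h2
      have hR : (range v).Infinite := by
        intro hfin
        have h3 : ∀ᶠ k in atTop, ∀ p ∈ range v, v k ≠ p := by
          rw [Filter.eventually_all_finite hfin]
          exact fun p _ => h2' p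
        obtain ⟨k, hk⟩ := h3.exists
        exact hk (v k) (mem_range_self k) rfl
      obtain ⟨A, hA, hAR⟩ := hmad _ hR
      have h4 : ∃ᶠ k in atTop, v k ∈ A := by
        intro hev
        obtain ⟨K, hK⟩ := eventually_atTop.1 hev
        apply hAR
        refine ((finite_lt_nat K).image v).subset ?_
        rintro p ⟨hpA, k, rfl⟩
        refine ⟨k, ?_, rfl⟩
        by_contra hc
        exact hK k (not_lt.1 hc) hpA
      obtain ⟨ψ₂, hψ₂, h5⟩ := extraction_of_frequently_atTop h4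
      refine ⟨ψ₁ ∘ ψ₂, X.lim n ⟨A, hA⟩, hψ₁.comp hψ₂, ?_⟩
      have : (fun k => (X.iso (u ((ψ₁ ∘ ψ₂) k)).1 (u ((ψ₁ ∘ ψ₂) k)).2 : X 𝒜)) =
          fun k => X.iso n (v (ψ₂ k)) := by
        funext k
        have e1 : (u ((ψ₁ ∘ ψ₂) k)).1 = n := h1 (ψ₂ k)
        rw [e1]
        rfl
      rw [this]
      refine X.tendsto_lim n ⟨A, hA⟩ _ h5 (fun p => ?_)
      exact hψ₂.tendsto_atTop.eventually (h2' p)
  · push Not at h
    have h' : ∀ n, ∀ᶠ k in atTop, (u k).1 ≠ n := h
    refine ⟨id, X.inf, strictMono_id, X.tendsto_inf _ fun N => ?_⟩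
    have h3 : ∀ᶠ k in atTop, ∀ n ∈ {n : ℕ | n < N}, (u k).1 ≠ n := by
      rw [Filter.eventually_all_finite (finite_lt_nat N)]
      exact fun n _ => h' n
    filter_upwards [h3] with k hk
    show N ≤ (u k).1
    by_contra hc
    exact hk _ (not_le.1 hc) rfl

theorem X.dense {𝒜 : Set (Set (ℕ × ℕ))} (h𝒜 : AD 𝒜) (U : Set (X 𝒜)) (hU : IsOpen U)
    (hne : U.Nonempty) : ∃ n p, X.iso n p ∈ U := by
  obtain ⟨x, hx⟩ := hne
  rw [X.isOpen_iff] at hU
  cases x with
  | inf =>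
    obtain ⟨N, hN⟩ := hU.2 hx
    exact ⟨N, (0, 0), hN _ (le_refl N)⟩
  | iso n p => exact ⟨n, p, hx⟩
  | lim n A =>
    have h1 := hU.1 n A hx
    have h2 : A.1.Infinite := h𝒜.1 A.1 A.2
    obtain ⟨p, hp, hp2⟩ := (h2.sdiff h1).nonempty
    refine ⟨n, p, ?_⟩
    by_contra hc
    exact hp2 ⟨hp, hc⟩

/-! ### The product is a `k_R`-space -/

theorem kR {𝒜 : Set (Set (ℕ × ℕ))} (h𝒜 : AD 𝒜)
    (hmad : ∀ R : Set (ℕ × ℕ), R.Infinite → ∃ A ∈ 𝒜, (A ∩ R).Infinite) :
    KRSpace (X 𝒜 × Y) := by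
  have := X.t35 h𝒜
  have := Y.t35
  have := X.sequential 𝒜
  refine ⟨inferInstance, fun f hf => ?_⟩
  -- `f` is sequentially continuous
  have hseq : ∀ (z : ℕ → X 𝒜 × Y) (w : X 𝒜 × Y), Tendsto z atTop (𝓝 w) →
      Tendsto (fun k => f (z k)) atTop (𝓝 (f w)) := by
    intro z w hz
    have hK := hf _ hz.isCompact_insert_range
    have h1 : ContinuousWithinAt f (insert w (range z)) w := hK w (mem_insert _ _)
    refine h1.tendsto.comp (tendsto_nhdsWithin_iff.2 ⟨hz, Eventually.of_forall fun k => ?_⟩)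
    exact mem_insert_of_mem _ (mem_range_self k)
  -- continuity in the first variable
  have hX : ∀ y : Y, Continuous fun x => f (x, y) := by
    intro y
    rw [continuous_iff_seqContinuous]
    intro u x hu
    exact hseq (fun k => (u k, y)) (x, y) (hu.prodMk_nhds tendsto_const_nhds)
  -- uniform convergence along each spine
  have huni : ∀ (m : ℕ) (ε : ℝ), 0 < ε → ∃ k, ∀ i, k ≤ i → ∀ x : X 𝒜,
      |f (x, Y.iso m i) - f (x, Y.inf)| ≤ ε := by
    intro m ε hε
    by_contra hcon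
    push Not at hcon
    choose i hi x hx using hcon
    have hpt : ∀ k, ∃ q : ℕ × (ℕ × ℕ),
        ε < |f (X.iso q.1 q.2, Y.iso m (i k)) - f (X.iso q.1 q.2, Y.inf)| := by
      intro k
      have hopen : IsOpen {x : X 𝒜 | ε < |f (x, Y.iso m (i k)) - f (x, Y.inf)|} :=
        isOpen_lt continuous_const ((hX _).sub (hX _)).abs
      obtain ⟨n, p, h⟩ := X.dense h𝒜 _ hopen ⟨x k, hx k⟩
      exact ⟨(n, p), h⟩
    choose u hu using hpt
    obtain ⟨ψ, x', hψ, hx'⟩ := X.subseq hmad u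
    have hi' : Tendsto (fun k => i (ψ k)) atTop atTop :=
      tendsto_atTop_mono (fun k => le_trans (hψ.id_le k) (hi (ψ k))) tendsto_id
    have t1 := hseq _ (x', Y.inf) (hx'.prodMk_nhds (Y.tendsto_inf m _ hi'))
    have t2 := hseq _ (x', Y.inf) (hx'.prodMk_nhds
      (tendsto_const_nhds (x := Y.inf) (f := (atTop : Filter ℕ))))
    have t3 := (t1.sub t2).abs
    rw [sub_self, abs_zero] at t3
    obtain ⟨k, hk⟩ := (t3.eventually (gt_mem_nhds hε)).exists
    exact absurd hk (not_lt.2 (hu (ψ k)).le)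
  -- continuity
  rw [continuous_iff_continuousAt]
  rintro ⟨x, y⟩
  rw [Metric.continuousAt_iff']
  intro ε hε
  cases y with
  | iso m i =>
    have hU : IsOpen {x' : X 𝒜 | dist (f (x', Y.iso m i)) (f (x, Y.iso m i)) < ε} :=
      isOpen_lt ((hX _).dist continuous_const) continuous_const
    have hV : IsOpen {Y.iso m i} := by
      rw [Y.isOpen_iff]
      intro h
      simp at h
    have hxU : x ∈ {x' : X 𝒜 | dist (f (x', Y.iso m i)) (f (x, Y.iso m i)) < ε} := by
      simpa using hε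
    filter_upwards [(hU.prod hV).mem_nhds ⟨hxU, rfl⟩] with z hz
    obtain ⟨h1, h2⟩ := hz
    have h3 : z.2 = Y.iso m i := h2
    have h4 : z = (z.1, Y.iso m i) := by rw [← h3]
    rw [h4]
    exact h1
  | inf =>
    have hU : IsOpen {x' : X 𝒜 | dist (f (x', Y.inf)) (f (x, Y.inf)) < ε / 2} :=
      isOpen_lt ((hX _).dist continuous_const) continuous_const
    have hxU : x ∈ {x' : X 𝒜 | dist (f (x', Y.inf)) (f (x, Y.inf)) < ε / 2} := by
      simpa using half_pos hε
    choose k hk using fun m => huni m (ε / 4) (by positivity)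
    have hV : IsOpen {y : Y | ∀ m i, y = Y.iso m i → k m ≤ i} := by
      rw [Y.isOpen_iff]
      intro _ m
      refine ⟨k m, fun i hi m' i' h => ?_⟩
      simp only [Y.iso.injEq] at h
      obtain ⟨rfl, rfl⟩ := h
      exact hi
    have hyV : Y.inf ∈ {y : Y | ∀ m i, y = Y.iso m i → k m ≤ i} := by
      intro m i h
      cases h
    filter_upwards [(hU.prod hV).mem_nhds ⟨hxU, hyV⟩] with z hz
    obtain ⟨h1, h2⟩ := hz
    obtain ⟨a, b⟩ := z
    have h1' : dist (f (a, Y.inf)) (f (x, Y.inf)) < ε / 2 := h1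
    have h3 : dist (f (a, b)) (f (a, Y.inf)) ≤ ε / 4 := by
      cases b with
      | inf => simpa using (by positivity : (0 : ℝ) ≤ ε / 4)
      | iso m i => exact hk m i (h2 m i rfl) a
    calc dist (f (a, b)) (f (x, Y.inf)) ≤ dist (f (a, b)) (f (a, Y.inf)) +
          dist (f (a, Y.inf)) (f (x, Y.inf)) := dist_triangle _ _ _
      _ < ε / 4 + ε / 2 := by linarith
      _ < ε := by linarith

/-! ### The product is not a `k`-space -/

theorem Y.compact_spines (K : Set Y) (hK : IsCompact K) :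
    {m : ℕ | ∃ i, Y.iso m i ∈ K}.Finite := by
  by_contra hinf
  -- the points of `K` on the spines
  choose! i hi using fun m (h : m ∈ {m : ℕ | ∃ i, Y.iso m i ∈ K}) => h
  let O : ℕ → Set Y := fun N => {y | ∀ m, N ≤ m → y ≠ Y.iso m (i m)}
  have hO : ∀ N, IsOpen (O N) := by
    intro N
    rw [Y.isOpen_iff]
    intro _ m
    refine ⟨i m + 1, fun j hj m' _ h => ?_⟩
    simp only [Y.iso.injEq] at h
    obtain ⟨rfl, rfl⟩ := h
    omega
  have hcov : K ⊆ ⋃ N, O N := by
    intro y _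
    cases y with
    | inf => exact mem_iUnion.2 ⟨0, fun m _ h => by cases h⟩
    | iso m j =>
      refine mem_iUnion.2 ⟨m + 1, fun m' hm' h => ?_⟩
      simp only [Y.iso.injEq] at h
      omega
  have hdir : Directed (· ⊆ ·) O := by
    refine directed_of_isDirected_le ?_
    intro N M h y hy m hm
    exact hy m (le_trans h hm)
  obtain ⟨N, hN⟩ := hK.elim_directed_cover O hO hcov hdir
  apply hinf
  refine (finite_lt_nat N).subset ?_
  intro m hm
  by_contra hc
  exact hN (hi m hm) m (not_lt.1 hc) rfl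

theorem X.compact_limits {𝒜 : Set (Set (ℕ × ℕ))} (K : Set (X 𝒜)) (hK : IsCompact K) (n : ℕ)
    (A : ℕ → 𝒜) (hA : Function.Injective A) : {i : ℕ | X.lim n (A i) ∈ K}.Finite := by
  let O : ℕ → Set (X 𝒜) := fun N => {x | ∀ i, N ≤ i → x ≠ X.lim n (A i)}
  have hO : ∀ N, IsOpen (O N) := by
    intro N
    rw [X.isOpen_iff]
    refine ⟨fun n' B _ => ?_, fun _ => ⟨n + 1, fun x hx i _ h => ?_⟩⟩
    · refine finite_empty.subset ?_
      rintro q ⟨-, hq⟩
      apply hq
      intro i _ h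
      cases h
    · subst h
      have : n + 1 ≤ n := hx
      omega
  have hcov : K ⊆ ⋃ N, O N := by
    intro x _
    by_cases h : ∃ j, x = X.lim n (A j)
    · obtain ⟨j, rfl⟩ := h
      refine mem_iUnion.2 ⟨j + 1, fun i hi h => ?_⟩
      simp only [X.lim.injEq, true_and] at h
      have := hA h
      omega
    · exact mem_iUnion.2 ⟨0, fun i _ h' => h ⟨i, h'⟩⟩
  have hdir : Directed (· ⊆ ·) O := by
    refine directed_of_isDirected_le ?_
    intro N M h y hy m hm
    exact hy m (le_trans h hm)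
  obtain ⟨N, hN⟩ := hK.elim_directed_cover O hO hcov hdir
  refine (finite_lt_nat N).subset ?_
  intro i hi
  by_contra hc
  exact hN hi i (not_lt.1 hc) rfl

theorem not_k {𝒜 : Set (Set (ℕ × ℕ))} (h𝒜 : AD 𝒜) (hcol : ∀ k, col k ∈ 𝒜) :
    ¬ KSpace (X 𝒜 × Y) := by
  intro hk
  have := X.t35 h𝒜
  have := Y.t35
  let A : ℕ → 𝒜 := fun k => ⟨col k, hcol k⟩
  have hA : Function.Injective A := by
    intro a b h
    have h1 : col a = col b := congrArg Subtype.val h
    have h2 : (a, 0) ∈ col a := rfl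
    rw [h1] at h2
    exact h2
  let F : Set (X 𝒜 × Y) := {z | ∃ n i, z = (X.lim n (A i), Y.iso n i)}
  have hF : IsClosed F := by
    refine hk F fun K hK => ?_
    have h1 := Y.compact_spines _ (hK.image continuous_snd)
    have h2 : ∀ n, {i : ℕ | X.lim n (A i) ∈ Prod.fst '' K}.Finite := fun n =>
      X.compact_limits _ (hK.image continuous_fst) n A hA
    have h3 : (F ∩ K).Finite := by
      refine ((h1.biUnion fun n _ => (h2 n).image
        fun i => ((X.lim n (A i), Y.iso n i) : X 𝒜 × Y))).subset ?_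
      rintro z ⟨⟨n, i, rfl⟩, hz⟩
      exact mem_biUnion (show n ∈ {m : ℕ | ∃ i, Y.iso m i ∈ Prod.snd '' K} from ⟨i, _, hz, rfl⟩)
        ⟨i, ⟨_, hz, rfl⟩, rfl⟩
    have h4 : (Subtype.val : K → X 𝒜 × Y) ⁻¹' F = (Subtype.val : K → X 𝒜 × Y) ⁻¹' (F ∩ K) := by
      ext z
      simp
    rw [h4]
    exact h3.isClosed.preimage continuous_subtype_val
  have hmem : ((X.inf, Y.inf) : X 𝒜 × Y) ∈ closure F := by
    rw [mem_closure_iff]
    intro W hW hW2
    obtain ⟨U, V, hU2, hV2, hU1, hV1, hUV⟩ := isOpen_prod_iff.1 hW _ _ hW2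
    obtain ⟨N, hN⟩ := (X.isOpen_iff.1 hU2).2 hU1
    obtain ⟨k, hk'⟩ := (Y.isOpen_iff.1 hV2) hV1 N
    exact ⟨(X.lim N (A k), Y.iso N k), hUV ⟨hN _ (le_refl N), hk' k le_rfl⟩, ⟨N, k, rfl⟩⟩
  rw [hF.closure_eq] at hmem
  obtain ⟨n, i, h⟩ := hmem
  cases h

/-- There are sequential spaces `X` and `Y` such that `X × Y` is a `k_R`-space but not a `k`-space. -/
theorem result : ∃ (X : Type) (_ : TopologicalSpace X) (Y : Type) (_ : TopologicalSpace Y),
    SequentialSpace X ∧ SequentialSpace Y ∧ KRSpace (X × Y) ∧ ¬ KSpace (X × Y) := by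
  obtain ⟨𝒜, h𝒜, hmad, hcol⟩ := exists_mad
  exact ⟨X 𝒜, inferInstance, Y, inferInstance, X.sequential 𝒜, Y.sequential, kR h𝒜 hmad,
    not_k h𝒜 hcol⟩

end Pool.Agent.Results.MP_a29c66_gt.NotK
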